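import Pool.Agent.H37.CNS.Stmts

/-! Row ZUC of board cns: the upper bound for `p`-groups, central elements only. -/

set_option autoImplicit false

namespace Pool.CND

/-- in a finite `p`-group a subgroup whose conjugates generate the group is the group -/
theorem zuc_top {p : ℕ} {G : Type} [Group G] [Finite G] (hp : p.Prime)
    (hG : ∃ a : ℕ, Nat.card G = p ^ a) (W : Subgroup G)
    (hW : Subgroup.normalClosure (W : Set G) = ⊤) : W = ⊤ := by
  haveI : Fact p.Prime := ⟨hp⟩
  obtain ⟨a, ha⟩ := hG
  have hpg : IsPGroup p G := IsPGroup.of_card ha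
  haveI : Group.IsNilpotent G := hpg.isNilpotent
  rcases eq_top_or_exists_le_coatom W with h | ⟨M, hM, hWM⟩
  · exact h
  · exfalso
    haveI : M.Normal := Subgroup.NormalizerCondition.normal_of_coatom M
      Group.normalizerCondition_of_isNilpotent hM
    have : Subgroup.normalClosure (W : Set G) ≤ M := Subgroup.normalClosure_le_normal hWM
    rw [hW] at this
    exact hM.1 (top_le_iff.1 this)

/-- **ZUC** -/
theorem zuc_thm (h1 : S_GDV) : S_ZUC := by
  intro p q k G _ _ _ _ _ hp hG hq hz
  obtain ⟨a, _, rfl⟩ := hq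
  obtain ⟨n, hn⟩ := hG
  have key := h1 p k G a 1 hp inferInstance le_rfl (fun W _ hcl => ?_)
  · simpa using key.2
  · have hWt : W = ⊤ := zuc_top hp ⟨n, hn⟩ W hcl
    subst hWt
    refine ⟨fun z _ hz1 hzp hzc => ?_, fun g C hg _ _ _ _ _ _ _ x _ => ?_⟩
    · obtain ⟨H, hzH, hzc', hidx⟩ := hz z
        (Subgroup.mem_center_iff.2 fun w => hzc w (Subgroup.mem_top w)) hzp hz1
      obtain ⟨d, hd, hidx'⟩ := (Nat.dvd_prime_pow hp).1 hidx
      refine ⟨H, d, le_top, hzH, hzc', hd, ?_⟩
      rw [Subgroup.card_top, ← hidx', mul_comm]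
      exact (Subgroup.card_mul_index H).symm
    · have hg1 : g = 1 := by
        have hdvd : orderOf g ∣ p ^ n := hn ▸ orderOf_dvd_natCard g
        obtain ⟨m, _, hm⟩ := (Nat.dvd_prime_pow hp).1 hdvd
        rcases Nat.eq_zero_or_pos m with h0 | h0
        · rw [h0, pow_zero] at hm
          exact orderOf_eq_one_iff.1 hm
        · exfalso
          apply hg
          rw [hm]
          exact dvd_pow_self p h0.ne'
      rw [hg1]
      simp

end Pool.CND
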